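import Mathlib
import Pool.Agent.H675R2.HT.Main

/-!
`ACA₀` proves Hindman's theorem for two colours and sums of at most two terms.

`L2Structure` (structures for the language of second-order arithmetic, Henkin semantics),
`IsModelRCA0` and `ArithComp` are in `Pool.Agent.Helper617.RM.Defs` and
`Pool.Agent.Helper617.RM.HLDefs`.
-/

namespace Pool.Agent.Results.MP_1485b8_lc.BoundedHindmanInACA0

open Pool.Agent.Helper617.RM

universe u

/-- `N` is a model of `ACA₀`: a model of `RCA₀` (basic axioms, `Σ⁰₁` induction, `Δ⁰₁`
comprehension) that satisfies comprehension for all arithmetical formulas with parameters. -/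
def IsModelACA0 (N : L2Structure.{u}) : Prop := IsModelRCA0 N ∧ ArithComp N

/-- The sum, computed in the structure, of a (standard) finite list of numbers. -/
def sumL (N : L2Structure.{u}) : List N.M → N.M
  | [] => N.zero
  | a :: l => N.add a (sumL N l)

/-- `FS^{≤ n}(X)`: the set of sums of at least one and at most `n` distinct elements of `X`. -/
def FSle (N : L2Structure.{u}) (n : ℕ) (X : Set N.M) : Set N.M :=
  {s | ∃ l : List N.M, l ≠ [] ∧ l.length ≤ n ∧ l.Nodup ∧ (∀ x ∈ l, x ∈ X) ∧ s = sumL N l}

/-- The principle `HT_k^{≤ n}` in the structure `N`: for every colouring `c` of the numbers with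
`k` colours that exists in the structure (every colour class is one of the sets of the structure)
there is an unbounded set `X` of the structure such that `FS^{≤ n}(X)` is monochromatic. -/
def HT (N : L2Structure.{u}) (n k : ℕ) : Prop :=
  ∀ c : N.M → Fin k, (∀ i, {x | c x = i} ∈ N.Sets) →
    ∃ X ∈ N.Sets, (∀ b, ∃ x ∈ X, N.lt b x) ∧ ∃ i, ∀ s ∈ FSle N n X, c s = i

/-- `HT_2^{≤ 2}` holds in every model of `ACA₀`. -/
theorem result (N : L2Structure.{u}) (hN : IsModelACA0 N) : HT N 2 2 := by
  intro c hc
  have := hN.1
  have := sig1_of_arithComp hN.2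
  obtain ⟨K, X, hX, hinf, h1, h2⟩ := Pool.Agent.H675R2.HT.solved_all (hc 1)
  refine ⟨X, hX, hinf, ?_⟩
  classical
  have hcol : ∀ s, (s ∈ {x | c x = 1} ↔ K) → c s = if K then 1 else 0 := by
    intro s hs
    have hs' : c s = 1 ↔ K := hs
    by_cases hK : K
    · simp only [hK, iff_true] at hs'
      simp [hK, hs']
    · simp only [hK, iff_false] at hs'
      simp only [hK, if_false]
      omega
  refine ⟨if K then 1 else 0, ?_⟩
  rintro s ⟨l, hl0, hl2, hnd, hlX, rfl⟩
  match l, hl0, hl2, hnd, hlX with
  | [], hl0, _, _, _ => exact absurd rfl hl0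
  | [x], _, _, _, hlX =>
    have e : sumL N [x] = x := IsModelRCA0.ax_add_zero x
    rw [e]
    exact hcol x (h1 x (hlX x (by simp)))
  | [x, y], _, _, hnd, hlX =>
    have e : sumL N [x, y] = x + y := by
      show N.add x (N.add y N.zero) = N.add x y
      rw [IsModelRCA0.ax_add_zero]
    rw [e]
    have hx := hlX x (by simp)
    have hy := hlX y (by simp)
    have hne : x ≠ y := by
      intro h
      subst h
      simp at hnd
    rcases lt_or_gt_of_ne hne with h | h
    · exact hcol _ (h2 x hx y hy h)
    · rw [add_comm]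
      exact hcol _ (h2 y hy x hx h)
  | x :: y :: z :: l, _, hl2, _, _ =>
    simp only [List.length_cons] at hl2
    omega

end Pool.Agent.Results.MP_1485b8_lc.BoundedHindmanInACA0
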